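import Pool.Agent.Lib_helper77.EntPrim

/-!
# MP_a83194_lc, Q1: the schematic validities of the dynamic logic of entertainment

The set of schematically valid formulas is primitive recursive; in particular it is recursively
axiomatizable.
-/

set_option autoImplicit false

namespace Pool.Agent.Results.MP_a83194_lc.SchematicDecidable

open Pool.Agent.Lib_helper77.Ent

/-- Derivability from a set `Ax` of formulas by modus ponens (where `φ → ψ` is `¬(φ ∧ ¬ψ)`),
necessitation for `K`, and uniform substitution. -/
inductive Derivable {P : Type} (Ax : Set (Form P)) : Form P → Prop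
  | ax {φ : Form P} : φ ∈ Ax → Derivable Ax φ
  | mp {φ ψ : Form P} : Derivable Ax φ → Derivable Ax (.neg (.and φ (.neg ψ))) → Derivable Ax ψ
  | nec {φ : Form P} : Derivable Ax φ → Derivable Ax (.know φ)
  | subst {φ : Form P} (σ : P → Form P) : Derivable Ax φ → Derivable Ax (φ.subst σ)

theorem subst_subst {P : Type} (σ τ : P → Form P) (φ : Form P) :
    (φ.subst τ).subst σ = φ.subst (fun p => (τ p).subst σ) := by
  induction φ with
  | atom p => rfl
  | neg φ ih => simp only [Form.subst, ih]
  | and φ ψ ih1 ih2 => simp only [Form.subst, ih1, ih2]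
  | know φ ih => simp only [Form.subst, ih]
  | ent φ ih => simp only [Form.subst, ih]
  | ann φ ψ ih1 ih2 => simp only [Form.subst, ih1, ih2]
  | add φ ψ ih1 ih2 => simp only [Form.subst, ih1, ih2]
  | drop φ ψ ih1 ih2 => simp only [Form.subst, ih1, ih2]
  | real φ ψ ih1 ih2 => simp only [Form.subst, ih1, ih2]

/-- For the letters `p_i`, `i < k` (with `k` finite or infinite), the set of Goedel numbers of
schematically valid formulas is primitive recursive, and there is a recursive set of axioms from
which, by modus ponens, necessitation and uniform substitution, exactly the schematically valid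
formulas are derivable. -/
theorem result.{u} (k : ℕ∞) :
    PrimrecPred (fun n : ℕ =>
      ∃ φ : Form (Letter k), code φ = n ∧ SchematicallyValid.{u} φ) ∧
    ∃ Ax : Set (Form (Letter k)),
      ComputablePred (fun n : ℕ => ∃ φ : Form (Letter k), code φ = n ∧ φ ∈ Ax) ∧
      ∀ φ : Form (Letter k), Derivable Ax φ ↔ SchematicallyValid.{u} φ := by
  refine ⟨pr_schematicallyValid k, {φ | SchematicallyValid.{u} φ},
    (pr_schematicallyValid k).computablePred, fun φ => ⟨fun h => ?_, fun h => .ax h⟩⟩
  induction h with
  | ax h => exact h
  | mp h1 h2 ih1 ih2 =>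
    intro σ M w
    by_contra hcon
    exact ih2 σ M w ⟨ih1 σ M w, hcon⟩
  | nec h ih =>
    intro σ M w v _
    exact ih σ M v
  | subst τ h ih =>
    intro σ M w
    rw [subst_subst]
    exact ih _ M w

end Pool.Agent.Results.MP_a83194_lc.SchematicDecidable
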